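import Pool.Agent.Run7.h676.NI.GRP
import Pool.Agent.Run7.h676.NI.SP
import Pool.Agent.Run7.h676.NI.SS
import Pool.Agent.Run7.h676.NI.NIL
import Pool.Agent.Run7.h215.NI.EIG
import Pool.Agent.Run7.h215.NI.REPA
import Pool.Agent.Run7.h215.NI.REPC1
import Pool.Agent.Run7.h267.NI.FIT
import Pool.Agent.Run7.h400.NI.REPB
import Pool.Agent.Run7.h468.NI.GENA
import Pool.Agent.Run7.h468.NI.GPA
import Pool.Agent.Run7.h468.NI.LIFT
import Pool.Agent.Run7.h540.NI.CRIT
import Pool.Agent.Run7.h540.NI.HOMK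
import Pool.Agent.Run7.h540.NI.REPC2
import Pool.Agent.Run7.h540.NI.REPD
import Pool.Agent.Run7.h559.NI.CF
import Pool.Agent.Run7.h837.NI.STR
import Pool.Agent.Run7.h837.NI.TOP
import Pool.Agent.Run7.h890.NI.RAD
import Pool.Agent.Run7.h929.NI.GEN
import Pool.Agent.Run7.h929.NI.GP
import Pool.Agent.Run7.h929.NI.PROJ

/-!
# MP_e56c9f_al, question 1, for every finite soluble group

Authors of the pieces: helper215, helper267, helper400, helper468, helper540, helper559, helper837,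
helper890, helper929; interface, proof on paper, GRP, SP, SS, NIL: helper676.
-/

set_option autoImplicit false

namespace Pool.Agent.Results.MP_e56c9f_al.SolubleCase

/-- Let `V` be an elementary abelian `p`-group of order `p ^ n` acting by automorphisms on a finite
soluble group `G` with `C_G(V) = 1`.  Then the intersection of the subgroups `[G,v]` over all
`v ≠ 1` in `V` is nilpotent. -/
theorem result :
    ∀ (p n : ℕ), p.Prime →
    ∀ (G : Type) [Group G] [Finite G] [Group.IsSolvable G] (V : Type) [CommGroup V] [Finite V]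
      [MulDistribMulAction V G],
      Nat.card V = p ^ n →
      (∀ v : V, v ^ p = 1) →
      (∀ g : G, (∀ v : V, v • g = g) → g = 1) →
      Group.IsNilpotent
        (↥((⨅ (v : V) (_ : v ≠ 1),
          Subgroup.closure {x : G | ∃ g : G, x = g⁻¹ * (v • g)}) : Subgroup G)) := by
  have hGPA := Pool.Agent.Run7.h676.NI.t_GPA
  have hLIFT := Pool.Agent.Run7.h676.NI.t_LIFT
  have hGP := Pool.Agent.Run7.h929.NI.t_GP hGPA
  have hGEN := Pool.Agent.Run7.h929.NI.t_GEN hLIFT Pool.Agent.Run7.h676.NI.t_GENA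
  have hSTR := Pool.Agent.Run7.h837.NI.t_STR Pool.Agent.Run7.h267.NI.t_FIT
    Pool.Agent.Run7.h540.NI.t_CRIT
  have hRAD := Run7.h890.NI.t_RAD
  have hGRP := Pool.Agent.Run7.h676.NI.t_GRP hGEN hRAD (Run7.h890.NI.t_C1 hRAD)
    Run7.h890.NI.t_C3
  have hEIG := Pool.Agent.Run7.h215.NI.t_EIG
  have hREPB := Run7.h400.NI.t_REPB hGP (Pool.Agent.Run7.h215.NI.t_REPA hEIG)
  have hSP := Pool.Agent.Run7.h676.NI.t_SP hSTR hGRP hREPB (Pool.Agent.Run7.h215.NI.t_REPC1 hEIG)
    (Pool.Agent.Run7.h540.NI.t_REPC2 hGPA hRAD)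
    (Pool.Agent.Run7.h540.NI.t_REPD Pool.Agent.Run7.h929.NI.t_PROJ)
  have hSS := Pool.Agent.Run7.h676.NI.t_SS hSP hLIFT
  have hCF := Run7.h559.NI.t_CF hSS Pool.Agent.Run7.h540.NI.t_HOMK
  have hNIL := Pool.Agent.Run7.h676.NI.t_NIL hCF hLIFT
  exact Pool.Agent.Run7.h837.NI.t_TOP hNIL

end Pool.Agent.Results.MP_e56c9f_al.SolubleCase
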